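import Mathlib

/-!
A metrizable Choquet simplex: the Cantor space with countably many points split.
-/

set_option autoImplicit false

open MeasureTheory Set Filter Topology

namespace Pool.Agent.X19.LU

/-- the Cantor space -/
abbrev X := ℕ → Bool

/-- the index set of the coordinates -/
abbrev Ix := Finset ℕ ⊕ ℕ

/-- the ambient space -/
abbrev E := Ix → ℝ

/-- an injective dense sequence -/
noncomputable def q (j : ℕ) : X := fun i => decide (i ∈ (Denumerable.eqv (Finset ℕ)).symm j)

theorem q_inj : Function.Injective q := by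
  intro a b h
  have : (Denumerable.eqv (Finset ℕ)).symm a = (Denumerable.eqv (Finset ℕ)).symm b := by
    ext i
    have := congrFun h i
    simpa [q] using this
  exact (Denumerable.eqv (Finset ℕ)).symm.injective this

theorem q_dense (c : X) (n : ℕ) : ∃ j, ∀ i < n, q j i = c i := by
  refine ⟨Denumerable.eqv (Finset ℕ) ((Finset.range n).filter fun i => c i = true), fun i hi => ?_⟩
  simp [q, hi]

/-- the sets `c i = true` for all `i ∈ F` -/
def A (F : Finset ℕ) : Set X := {c | ∀ i ∈ F, c i = true}

theorem A_clopen (F : Finset ℕ) : IsClopen (A F) := by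
  have : A F = ⋂ i ∈ F, {c : X | c i = true} := by
    ext c; simp [A]
  rw [this]
  refine isClopen_biInter_finset fun i _ => ?_
  exact (isClopen_discrete {true}).preimage (continuous_apply i)

theorem A_meas (F : Finset ℕ) : MeasurableSet (A F) := (A_clopen F).1.measurableSet

theorem A_inter (F F' : Finset ℕ) : A F ∩ A F' = A (F ∪ F') := by
  ext c
  simp only [A, mem_inter_iff, mem_ofPred_eq, Finset.mem_union]
  constructor
  · rintro ⟨h1, h2⟩ i (h | h)
    · exact h1 i h
    · exact h2 i h
  · intro h
    exact ⟨fun i hi => h i (Or.inl hi), fun i hi => h i (Or.inr hi)⟩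

theorem A_empty : A ∅ = univ := by ext; simp [A]

/-- two probability measures with the same values on the sets `A F` are equal -/
theorem ext_A {μ ν : Measure X} [IsProbabilityMeasure μ] [IsProbabilityMeasure ν]
    (h : ∀ F, μ.real (A F) = ν.real (A F)) : μ = ν := by
  have hgen : (inferInstance : MeasurableSpace X) = MeasurableSpace.generateFrom (range A) := by
    apply le_antisymm
    · rw [show (inferInstance : MeasurableSpace X) = MeasurableSpace.pi from rfl]
      refine iSup_le fun i => ?_
      rw [← measurable_iff_comap_le]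
      have h1 : ∀ b : Bool, MeasurableSet[MeasurableSpace.generateFrom (range A)]
          ((fun c : X => c i) ⁻¹' {b}) := by
        have ht : MeasurableSet[MeasurableSpace.generateFrom (range A)]
            ((fun c : X => c i) ⁻¹' {true}) := by
          refine MeasurableSpace.measurableSet_generateFrom ⟨{i}, ?_⟩
          ext c; simp [A]
        intro b
        cases b with
        | true => exact ht
        | false =>
          have : (fun c : X => c i) ⁻¹' {false} = ((fun c : X => c i) ⁻¹' {true})ᶜ := by
            ext c; simp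
          rw [this]
          exact ht.compl
      exact @measurable_to_countable' Bool X _ _ (MeasurableSpace.generateFrom (range A)) _ h1
    · refine MeasurableSpace.generateFrom_le ?_
      rintro _ ⟨F, rfl⟩
      exact A_meas F
  refine MeasureTheory.ext_of_generate_finite (range A) hgen ?_ ?_ (by simp)
  · rintro _ ⟨F, rfl⟩ _ ⟨F', rfl⟩ _
    exact ⟨F ∪ F', (A_inter F F').symm⟩
  · rintro _ ⟨F, rfl⟩
    have := h F
    rw [← ofReal_measureReal (μ := μ), ← ofReal_measureReal (μ := ν), this]

/-- the points of the simplex over the points of the Cantor space -/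
noncomputable def G (σ : ℝ) (c : X) : E := open Classical in
  Sum.elim (fun F => if c ∈ A F then 1 else 0) (fun j => if c = q j then σ else 0)

theorem G_inl (σ : ℝ) (c : X) (F : Finset ℕ) :
    G σ c (Sum.inl F) = (A F).indicator (fun _ => (1 : ℝ)) c := by
  classical
  simp only [G, Sum.elim_inl, Set.indicator]

theorem G_inr (σ : ℝ) (c : X) (j : ℕ) :
    G σ c (Sum.inr j) = ({q j} : Set X).indicator (fun _ => σ) c := by
  classical
  simp only [G, Sum.elim_inr, Set.indicator, mem_singleton_iff]

/-- the simplex -/
def K : Set E := {v | ∃ μ : ProbabilityMeasure X,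
  (∀ F, v (Sum.inl F) = (μ : Measure X).real (A F)) ∧
    ∀ j, |v (Sum.inr j)| ≤ (μ : Measure X).real {q j}}

theorem K_of {v : E} (μ : Measure X) [IsProbabilityMeasure μ]
    (h1 : ∀ F, v (Sum.inl F) = μ.real (A F)) (h2 : ∀ j, |v (Sum.inr j)| ≤ μ.real {q j}) : v ∈ K :=
  ⟨⟨μ, inferInstance⟩, h1, h2⟩

theorem dirac_real (c : X) (S : Set X) :
    (Measure.dirac c).real S = S.indicator (fun _ => (1 : ℝ)) c := by
  classical
  rw [Measure.real, Measure.dirac_apply]
  by_cases h : c ∈ S <;> simp [h]

theorem G_mem {σ : ℝ} (hσ : |σ| ≤ 1) (c : X) : G σ c ∈ K := by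
  classical
  refine K_of (Measure.dirac c) (fun F => ?_) (fun j => ?_)
  · rw [G_inl, dirac_real]
  · rw [G_inr, dirac_real]
    by_cases h : c ∈ ({q j} : Set X)
    · rw [Set.indicator_of_mem h, Set.indicator_of_mem h]; exact hσ
    · rw [Set.indicator_of_notMem h, Set.indicator_of_notMem h]; simp

theorem convex_K : Convex ℝ K := by
  rintro v ⟨μ, h1, h2⟩ w ⟨ν, h3, h4⟩ a b ha hb hab
  have hp : IsProbabilityMeasure
      (ENNReal.ofReal a • (μ : Measure X) + ENNReal.ofReal b • (ν : Measure X)) := by
    constructor
    simp only [Measure.coe_add, Measure.coe_smul, Pi.add_apply, Pi.smul_apply, measure_univ,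
      smul_eq_mul, mul_one]
    rw [← ENNReal.ofReal_add ha hb, hab, ENNReal.ofReal_one]
  have hr : ∀ S : Set X, (ENNReal.ofReal a • (μ : Measure X)
      + ENNReal.ofReal b • (ν : Measure X)).real S
      = a * (μ : Measure X).real S + b * (ν : Measure X).real S := by
    intro S
    rw [measureReal_add_apply (ENNReal.mul_ne_top ENNReal.ofReal_ne_top (measure_ne_top _ _))
      (ENNReal.mul_ne_top ENNReal.ofReal_ne_top (measure_ne_top _ _)),
      measureReal_ennreal_smul_apply, measureReal_ennreal_smul_apply,
      ENNReal.toReal_ofReal ha, ENNReal.toReal_ofReal hb]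
  refine K_of (ENNReal.ofReal a • (μ : Measure X) + ENNReal.ofReal b • (ν : Measure X))
    (fun F => ?_) (fun j => ?_)
  · rw [hr]
    simp only [Pi.add_apply, Pi.smul_apply, smul_eq_mul, h1, h3]
  · rw [hr]
    simp only [Pi.add_apply, Pi.smul_apply, smul_eq_mul]
    refine (abs_add_le _ _).trans ?_
    rw [abs_mul, abs_mul, abs_of_nonneg ha, abs_of_nonneg hb]
    exact add_le_add (mul_le_mul_of_nonneg_left (h2 j) ha) (mul_le_mul_of_nonneg_left (h4 j) hb)

/-- the cylinders around the points `q j` -/
def U (j n : ℕ) : Set X := {c | ∀ i < n, c i = q j i}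

theorem U_clopen (j n : ℕ) : IsClopen (U j n) := by
  have : U j n = ⋂ i ∈ Finset.range n, {c : X | c i = q j i} := by
    ext c; simp [U]
  rw [this]
  refine isClopen_biInter_finset fun i _ => ?_
  exact (isClopen_discrete {q j i}).preimage (continuous_apply i)

theorem iInter_U (j : ℕ) : ⋂ n, U j n = {q j} := by
  ext c
  simp only [mem_iInter, U, mem_ofPred_eq, mem_singleton_iff]
  constructor
  · intro h; funext i; exact h (i + 1) i (Nat.lt_succ_self i)
  · rintro rfl n i _; rfl

theorem le_single_iff (μ : Measure X) [IsProbabilityMeasure μ] (j : ℕ) (y : ℝ) :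
    y ≤ μ.real {q j} ↔ ∀ n, y ≤ μ.real (U j n) := by
  constructor
  · intro h n
    refine h.trans (measureReal_mono ?_)
    rw [← iInter_U j]
    exact iInter_subset _ n
  · intro h
    have hanti : Antitone (U j) := by
      intro a b hab c hc i hi
      exact hc i (lt_of_lt_of_le hi hab)
    have h1 : Tendsto (fun n => μ (U j n)) atTop (𝓝 (μ (⋂ n, U j n))) :=
      tendsto_measure_iInter_atTop (fun n => (U_clopen j n).1.measurableSet.nullMeasurableSet) hanti
        ⟨0, measure_ne_top _ _⟩
    rw [iInter_U] at h1
    have h2 : Tendsto (fun n => μ.real (U j n)) atTop (𝓝 (μ.real {q j})) :=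
      (ENNReal.tendsto_toReal (measure_ne_top _ _)).comp h1
    exact ge_of_tendsto' h2 h

theorem cont_clopen {S : Set X} (hS : IsClopen S) :
    Continuous fun μ : ProbabilityMeasure X => (μ : Measure X).real S := by
  rw [continuous_iff_continuousAt]
  intro μ
  have h := ProbabilityMeasure.tendsto_measure_of_isClopen_of_tendsto (μs := id)
    (L := 𝓝 μ) tendsto_id hS
  exact (NNReal.continuous_coe.tendsto _).comp h

theorem isCompact_K : IsCompact K := by
  let T : Set (ProbabilityMeasure X × (ℕ → ℝ)) :=
    {p | ∀ j n, |p.2 j| ≤ (p.1 : Measure X).real (U j n)}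
  have hT : IsClosed T := by
    have : T = ⋂ j, ⋂ n, {p | |p.2 j| ≤ (p.1 : Measure X).real (U j n)} := by
      ext p; simp [T]
    rw [this]
    refine isClosed_iInter fun j => isClosed_iInter fun n => ?_
    refine isClosed_le ?_ ?_
    · exact ((continuous_apply j).comp continuous_snd).abs
    · exact (cont_clopen (U_clopen j n)).comp continuous_fst
  have hTc : IsCompact T := by
    refine IsCompact.of_isClosed_subset
      (isCompact_univ.prod (isCompact_univ_pi fun _ : ℕ => isCompact_Icc (a := (-1 : ℝ)) (b := 1)))
      hT ?_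
    rintro ⟨μ, x⟩ h
    refine ⟨mem_univ _, fun j _ => ?_⟩
    have h1 := h j 0
    have h2 : (μ : Measure X).real (U j 0) ≤ 1 := measureReal_le_one
    exact abs_le.1 (h1.trans h2)
  let Φ : ProbabilityMeasure X × (ℕ → ℝ) → E := fun p =>
    Sum.elim (fun F => (p.1 : Measure X).real (A F)) p.2
  have hΦ : Continuous Φ := by
    refine continuous_pi fun i => ?_
    rcases i with F | j
    · exact (cont_clopen (A_clopen F)).comp continuous_fst
    · exact (continuous_apply j).comp continuous_snd
  have : K = Φ '' T := by
    ext v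
    constructor
    · rintro ⟨μ, h1, h2⟩
      refine ⟨(μ, fun j => v (Sum.inr j)), fun j n => ?_, ?_⟩
      · exact (le_single_iff _ j _).1 (h2 j) n
      · funext i
        rcases i with F | j
        · exact (h1 F).symm
        · rfl
    · rintro ⟨⟨μ, x⟩, h, rfl⟩
      exact ⟨μ, fun F => rfl, fun j => (le_single_iff _ j _).2 fun n => h j n⟩
  rw [this]
  exact hTc.image hΦ

end Pool.Agent.X19.LU
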