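import Pool.Agent.X19.LU.Basic

/-!
The extreme points of the simplex, the representing measures.
-/

set_option autoImplicit false

open MeasureTheory Set Filter Topology

namespace Pool.Agent.X19.LU

theorem coord_inl_bd {v : E} (hv : v ∈ K) (F : Finset ℕ) :
    0 ≤ v (Sum.inl F) ∧ v (Sum.inl F) ≤ 1 := by
  obtain ⟨μ, h1, h2⟩ := hv
  rw [h1]
  exact ⟨measureReal_nonneg, measureReal_le_one⟩

theorem coord_inr_bd {v : E} (hv : v ∈ K) (j : ℕ) : |v (Sum.inr j)| ≤ 1 := by
  obtain ⟨μ, h1, h2⟩ := hv
  exact (h2 j).trans measureReal_le_one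

/-- a convex combination with positive weights which is equal to the upper bound -/
theorem eq_of_conv {a b u w m : ℝ} (ha : 0 < a) (hb : 0 < b) (hab : a + b = 1) (hu : u ≤ m)
    (hw : w ≤ m) (h : a * u + b * w = m) : u = m := by
  by_contra hne
  have : u < m := lt_of_le_of_ne hu hne
  have h1 : a * u + b * w < a * m + b * m :=
    add_lt_add_of_lt_of_le (mul_lt_mul_of_pos_left this ha) (mul_le_mul_of_nonneg_left hw hb.le)
  rw [← add_mul, hab, one_mul, h] at h1
  exact lt_irrefl _ h1

theorem eq_of_conv' {a b u w m : ℝ} (ha : 0 < a) (hb : 0 < b) (hab : a + b = 1) (hu : m ≤ u)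
    (hw : m ≤ w) (h : a * u + b * w = m) : u = m := by
  have := eq_of_conv (u := -u) (w := -w) (m := -m) ha hb hab (by linarith) (by linarith)
    (by linarith)
  linarith

theorem half {σ : ℝ} (hσ : |σ| = 1) (c : X) {u w : E} (hu : u ∈ K) (hw : w ∈ K) {a b : ℝ}
    (ha : 0 < a) (hb : 0 < b) (hab : a + b = 1) (h : a • u + b • w = G σ c) : u = G σ c := by
  classical
  have hi : ∀ i, a * u i + b * w i = G σ c i := by
    intro i
    have := congrFun h i
    simpa only [Pi.add_apply, Pi.smul_apply, smul_eq_mul] using this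
  have hF : ∀ F, u (Sum.inl F) = G σ c (Sum.inl F) := by
    intro F
    have h1 := hi (Sum.inl F)
    rw [G_inl] at h1 ⊢
    by_cases hc : c ∈ A F
    · rw [Set.indicator_of_mem hc] at h1 ⊢
      exact eq_of_conv ha hb hab (coord_inl_bd hu F).2 (coord_inl_bd hw F).2 h1
    · rw [Set.indicator_of_notMem hc] at h1 ⊢
      exact eq_of_conv' ha hb hab (coord_inl_bd hu F).1 (coord_inl_bd hw F).1 h1
  funext i
  rcases i with F | j
  · exact hF F
  · obtain ⟨μ, h1, h2⟩ := id hu
    have hμ : (μ : Measure X) = Measure.dirac c := by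
      apply ext_A
      intro F
      rw [← h1, hF, G_inl, dirac_real]
    have h3 := h2 j
    rw [hμ, dirac_real] at h3
    have h4 := hi (Sum.inr j)
    rw [G_inr] at h4 ⊢
    by_cases hc : c ∈ ({q j} : Set X)
    · rw [Set.indicator_of_mem hc] at h3 h4 ⊢
      have hw' := coord_inr_bd hw j
      rw [abs_le] at h3 hw'
      rcases (abs_eq zero_le_one).1 hσ with h5 | h5
      · rw [h5] at h4 ⊢
        exact eq_of_conv ha hb hab h3.2 hw'.2 h4
      · rw [h5] at h4 ⊢
        exact eq_of_conv' ha hb hab h3.1 hw'.1 h4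
    · rw [Set.indicator_of_notMem hc] at h3 ⊢
      exact abs_nonpos_iff.1 h3

theorem G_ext {σ : ℝ} (hσ : |σ| = 1) (c : X) : G σ c ∈ extremePoints ℝ K := by
  rw [mem_extremePoints]
  refine ⟨G_mem hσ.le c, ?_⟩
  rintro u hu w hw ⟨a, b, ha, hb, hab, h⟩
  refine ⟨half hσ c hu hw ha hb hab h, half hσ c hw hu hb ha (by linarith) ?_⟩
  rw [add_comm]; exact h

theorem G_conv (σ : ℝ) (c : X) :
    G σ c = ((1 + σ) / 2) • G 1 c + ((1 - σ) / 2) • G (-1) c := by
  classical
  funext i
  rcases i with F | j
  · simp only [Pi.add_apply, Pi.smul_apply, smul_eq_mul, G_inl]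
    ring
  · simp only [Pi.add_apply, Pi.smul_apply, smul_eq_mul, G_inr]
    by_cases hc : c ∈ ({q j} : Set X)
    · simp only [Set.indicator_of_mem hc]; ring
    · simp only [Set.indicator_of_notMem hc]; ring

theorem G_off {c : X} (hc : c ∉ range q) (σ τ : ℝ) : G σ c = G τ c := by
  classical
  funext i
  rcases i with F | j
  · simp only [G_inl]
  · have : c ∉ ({q j} : Set X) := fun h => hc ⟨j, (mem_singleton_iff.1 h).symm⟩
    simp only [G_inr, Set.indicator_of_notMem this]

theorem ext_sub {v : E} (hv : v ∈ extremePoints ℝ K) : ∃ c, v = G 1 c ∨ v = G (-1) c := by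
  classical
  rw [mem_extremePoints] at hv
  obtain ⟨hvK, hext⟩ := hv
  obtain ⟨μ', h1, h2⟩ := id hvK
  set μ : Measure X := (μ' : Measure X) with hμ
  -- conditional measures
  have hcond : ∀ B : Set X, MeasurableSet B → 0 < μ.real B → ∀ S : Set X,
      (ProbabilityTheory.cond μ B).real S = (μ.real B)⁻¹ * μ.real (B ∩ S) := by
    intro B hB _ S
    rw [Measure.real, ProbabilityTheory.cond_apply hB, ENNReal.toReal_mul, ENNReal.toReal_inv]
    rfl
  have hpart : ∀ B : Set X, MeasurableSet B → 0 < μ.real B →
      (Sum.elim (fun F => (ProbabilityTheory.cond μ B).real (A F))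
        (fun j => if q j ∈ B then v (Sum.inr j) / μ.real B else 0) : E) ∈ K := by
    intro B hB hpos
    have hB0 : μ B ≠ 0 := by
      intro h
      rw [Measure.real, h] at hpos
      simp at hpos
    have : IsProbabilityMeasure (ProbabilityTheory.cond μ B) :=
      ProbabilityTheory.cond_isProbabilityMeasure hB0
    refine K_of (ProbabilityTheory.cond μ B) (fun F => rfl) (fun j => ?_)
    rw [hcond B hB hpos]
    simp only [Sum.elim_inr]
    split_ifs with hq
    · rw [inter_eq_self_of_subset_right (singleton_subset_iff.2 hq), abs_div,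
        abs_of_pos hpos, div_eq_inv_mul]
      exact mul_le_mul_of_nonneg_left (h2 j) (inv_nonneg.2 hpos.le)
    · rw [abs_zero]
      exact mul_nonneg (inv_nonneg.2 hpos.le) measureReal_nonneg
  have h01 : ∀ F, μ.real (A F) = 0 ∨ μ.real (A F) = 1 := by
    intro F
    by_contra hcon
    push Not at hcon
    have hpos : 0 < μ.real (A F) := lt_of_le_of_ne measureReal_nonneg hcon.1.symm
    have hlt : μ.real (A F) < 1 := lt_of_le_of_ne measureReal_le_one hcon.2
    have hcompl : μ.real (A F)ᶜ = 1 - μ.real (A F) := probReal_compl_eq_one_sub (A_meas F)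
    have hposc : 0 < μ.real (A F)ᶜ := by rw [hcompl]; linarith
    have hu := hpart (A F) (A_meas F) hpos
    have hw := hpart (A F)ᶜ (A_meas F).compl hposc
    have hseg := hext _ hu _ hw ⟨μ.real (A F), μ.real (A F)ᶜ, hpos, hposc, by rw [hcompl]; ring, by
      funext i
      rcases i with F' | j
      · simp only [Pi.add_apply, Pi.smul_apply, smul_eq_mul, Sum.elim_inl]
        rw [hcond _ (A_meas F) hpos, hcond _ (A_meas F).compl hposc, ← mul_assoc, ← mul_assoc,
          mul_inv_cancel₀ hpos.ne', mul_inv_cancel₀ hposc.ne', one_mul, one_mul, h1]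
        have := measureReal_inter_add_sdiff (μ := μ) (s := A F') (A_meas F)
        rw [Set.sdiff_eq, inter_comm, inter_comm (A F')] at this
        exact this
      · simp only [Pi.add_apply, Pi.smul_apply, smul_eq_mul, Sum.elim_inr]
        by_cases hq : q j ∈ A F
        · have hq' : q j ∉ (A F)ᶜ := fun h => h hq
          rw [if_pos hq, if_neg hq']
          field_simp
          ring
        · have hq' : q j ∈ (A F)ᶜ := hq
          rw [if_neg hq, if_pos hq']
          field_simp
          ring⟩
    have h3 := congrFun hseg.1 (Sum.inl F)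
    simp only [Sum.elim_inl] at h3
    rw [hcond _ (A_meas F) hpos, inter_self, inv_mul_cancel₀ hpos.ne', h1] at h3
    exact hcon.2 h3.symm
  -- the point
  let c : X := fun i => decide (μ.real (A {i}) = 1)
  have hdir : μ = Measure.dirac c := by
    apply ext_A
    intro F
    rw [dirac_real]
    by_cases hc : c ∈ A F
    · rw [Set.indicator_of_mem hc]
      have hnull : μ (A F)ᶜ = 0 := by
        have : (A F)ᶜ = ⋃ i ∈ F, (A {i})ᶜ := by
          ext d
          simp [A]
        rw [this]
        refine (measure_biUnion_null_iff F.countable_toSet).2 fun i hi => ?_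
        have hci : c i = true := hc i hi
        have h4 : μ.real (A {i}) = 1 := by simpa [c] using hci
        have h5 : μ.real (A {i})ᶜ = 0 := by
          rw [probReal_compl_eq_one_sub (A_meas {i}), h4, sub_self]
        exact (measureReal_eq_zero_iff).1 h5
      have h6 : μ.real (A F)ᶜ = 0 := by rw [Measure.real, hnull]; rfl
      rw [probReal_compl_eq_one_sub (A_meas F)] at h6
      linarith
    · rw [Set.indicator_of_notMem hc]
      have : ∃ i ∈ F, c i ≠ true := by
        by_contra hh
        push Not at hh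
        exact hc hh
      obtain ⟨i, hi, hci⟩ := this
      have h4 : μ.real (A {i}) ≠ 1 := by simpa [c] using hci
      have h5 : μ.real (A {i}) = 0 := (h01 {i}).resolve_right h4
      have h6 : μ.real (A F) ≤ μ.real (A {i}) := by
        refine measureReal_mono ?_
        intro d hd k hk
        rw [Finset.mem_singleton] at hk
        rw [hk]; exact hd i hi
      exact le_antisymm (h5 ▸ h6) measureReal_nonneg
  have hvG : ∃ σ, |σ| ≤ 1 ∧ v = G σ c := by
    by_cases hc : c ∈ range q
    · obtain ⟨k, hk⟩ := hc
      refine ⟨v (Sum.inr k), coord_inr_bd hvK k, ?_⟩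
      funext i
      rcases i with F | j
      · rw [h1, G_inl, hdir, dirac_real]
      · rw [G_inr]
        by_cases hj : j = k
        · subst hj
          rw [Set.indicator_of_mem (by rw [hk]; rfl)]
        · have hcj : c ∉ ({q j} : Set X) := by
            intro h
            rw [mem_singleton_iff, ← hk] at h
            exact hj (q_inj h).symm
          rw [Set.indicator_of_notMem hcj]
          have := h2 j
          rw [hdir, dirac_real, Set.indicator_of_notMem hcj] at this
          exact abs_nonpos_iff.1 this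
    · refine ⟨0, by simp, ?_⟩
      funext i
      rcases i with F | j
      · rw [h1, G_inl, hdir, dirac_real]
      · rw [G_inr]
        have hcj : c ∉ ({q j} : Set X) := fun h => hc ⟨j, (mem_singleton_iff.1 h).symm⟩
        rw [Set.indicator_of_notMem hcj]
        have := h2 j
        rw [hdir, dirac_real, Set.indicator_of_notMem hcj] at this
        exact abs_nonpos_iff.1 this
  obtain ⟨σ, hσ, hG⟩ := hvG
  refine ⟨c, ?_⟩
  rcases eq_or_lt_of_le hσ with h | h
  · rcases (abs_eq zero_le_one).1 h with h5 | h5
    · left; rw [hG, h5]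
    · right; rw [hG, h5]
  · rw [abs_lt] at h
    left
    have := hext (G 1 c) (G_mem (by simp) c) (G (-1) c) (G_mem (by simp) c)
      ⟨(1 + σ) / 2, (1 - σ) / 2, by linarith, by linarith, by ring, by rw [hG, ← G_conv]⟩
    exact this.1.symm

theorem ext_iff {v : E} : v ∈ extremePoints ℝ K ↔ ∃ c, v = G 1 c ∨ v = G (-1) c := by
  refine ⟨ext_sub, ?_⟩
  rintro ⟨c, rfl | rfl⟩
  · exact G_ext (by simp) c
  · exact G_ext (by simp) c

end Pool.Agent.X19.LU
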