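import Pool.Agent.X19.LU.Ext

/-!
Existence and uniqueness of the representing measures.
-/

set_option autoImplicit false

open MeasureTheory Set Filter Topology

namespace Pool.Agent.X19.LU

/-- A continuous linear functional depends on finitely many coordinates. -/
theorem functional (ℓ : E →L[ℝ] ℝ) :
    ∃ s : Finset Ix, ∀ x : E, ℓ x = ∑ i ∈ s, x i * ℓ (Pi.single i 1) := by
  classical
  have hopen : IsOpen (ℓ ⁻¹' Metric.ball 0 1) := Metric.isOpen_ball.preimage ℓ.continuous
  obtain ⟨s, u, hu, hsub⟩ := isOpen_pi_iff.1 hopen 0 (by simp)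
  have hzero : ∀ x : E, (∀ i ∈ s, x i = 0) → ℓ x = 0 := by
    intro x hx
    by_contra hne
    have h1 : ∀ t : ℝ, |t * ℓ x| < 1 := by
      intro t
      have hmem : t • x ∈ (s : Set Ix).pi u := by
        intro i hi
        have : (t • x) i = 0 := by
          simp only [Pi.smul_apply, smul_eq_mul, hx i hi, mul_zero]
        rw [this]
        exact (hu i hi).2
      have := hsub hmem
      simpa using this
    have h2 := h1 (ℓ x)⁻¹
    rw [inv_mul_cancel₀ hne, abs_one] at h2
    exact lt_irrefl _ h2
  refine ⟨s, fun x => ?_⟩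
  have h1 : ℓ (x - ∑ i ∈ s, x i • (Pi.single i 1 : E)) = 0 := by
    apply hzero
    intro i hi
    simp only [Pi.sub_apply, Finset.sum_apply, Pi.smul_apply, smul_eq_mul, Pi.single_apply]
    rw [Finset.sum_eq_single i]
    · simp
    · intro b _ hb
      simp [hb.symm]
    · intro h; exact absurd hi h
  rw [map_sub, sub_eq_zero, map_sum] at h1
  rw [h1]
  refine Finset.sum_congr rfl fun i _ => ?_
  rw [map_smul, smul_eq_mul]

/-- the Borel probability measure `ξ` is concentrated on the extreme points and has barycentre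
`v` -/
def Rep (ξ : Measure E) (v : E) : Prop :=
  IsProbabilityMeasure ξ ∧ ξ (extremePoints ℝ K)ᶜ = 0 ∧ ∀ ℓ : E →L[ℝ] ℝ, ∫ x, ℓ x ∂ξ = ℓ v

theorem measurable_G (σ : ℝ) : Measurable (G σ) := by
  refine measurable_pi_lambda _ fun i => ?_
  rcases i with F | j
  · simp only [G_inl]
    exact measurable_const.indicator (A_meas F)
  · simp only [G_inr]
    exact measurable_const.indicator (measurableSet_singleton _)

theorem G_bd {σ : ℝ} (hσ : |σ| ≤ 1) (c : X) (i : Ix) : |G σ c i| ≤ 1 := by
  rcases i with F | j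
  · have := coord_inl_bd (G_mem hσ c) F
    rw [abs_le]; constructor <;> linarith [this.1, this.2]
  · exact coord_inr_bd (G_mem hσ c) j

theorem exists_rep {v : E} (hv : v ∈ K) : ∃ ξ, Rep ξ v := by
  classical
  obtain ⟨μ', h1, h2⟩ := id hv
  set μ : Measure X := (μ' : Measure X) with hμ
  -- the density
  let r : X → ℝ := fun c => if h : ∃ j, c = q j then v (Sum.inr h.choose) / μ.real {c} else 0
  have hrq : ∀ j, r (q j) = v (Sum.inr j) / μ.real {q j} := by
    intro j
    have h : ∃ k, q j = q k := ⟨j, rfl⟩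
    have hk : h.choose = j := (q_inj h.choose_spec).symm
    simp only [r, dif_pos h, hk]
  have hr0 : ∀ c, c ∉ range q → r c = 0 := by
    intro c hc
    have h : ¬ ∃ j, c = q j := fun ⟨j, hj⟩ => hc ⟨j, hj.symm⟩
    simp only [r, dif_neg h]
  have hr1 : ∀ c, |r c| ≤ 1 := by
    intro c
    by_cases hc : c ∈ range q
    · obtain ⟨j, rfl⟩ := hc
      rw [hrq, abs_div, abs_of_nonneg (measureReal_nonneg (μ := μ) (s := {q j}))]
      exact div_le_one_of_le₀ (h2 j) measureReal_nonneg
    · rw [hr0 c hc]; simp
  have hrm : Measurable r := by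
    refine (measurable_zero : Measurable (0 : X → ℝ)).measurable_of_countable_ne ?_
    refine (countable_range q).mono ?_
    intro c hc
    by_contra h
    exact hc (hr0 c h).symm
  let θ : ℝ → X → NNReal := fun σ c => Real.toNNReal ((1 + σ * r c) / 2)
  have hθm : ∀ σ, Measurable (θ σ) := by
    intro σ
    exact ((measurable_const.add (hrm.const_mul σ)).div_const 2).real_toNNReal
  have hθv : ∀ σ : ℝ, |σ| ≤ 1 → ∀ c, ((θ σ c : NNReal) : ℝ) = (1 + σ * r c) / 2 := by
    intro σ hσ c
    refine Real.coe_toNNReal _ ?_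
    have h3 : |σ * r c| ≤ 1 := by
      rw [abs_mul]
      calc |σ| * |r c| ≤ 1 * 1 := mul_le_mul hσ (hr1 c) (abs_nonneg _) zero_le_one
        _ = 1 := one_mul 1
    have := (abs_le.1 h3).1
    linarith
  have hθ1 : ∀ σ : ℝ, |σ| ≤ 1 → ∀ c, ((θ σ c : NNReal) : ℝ) ≤ 1 := by
    intro σ hσ c
    rw [hθv σ hσ c]
    have h3 : |σ * r c| ≤ 1 := by
      rw [abs_mul]
      calc |σ| * |r c| ≤ 1 * 1 := mul_le_mul hσ (hr1 c) (abs_nonneg _) zero_le_one
        _ = 1 := one_mul 1
    have := (abs_le.1 h3).2
    linarith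
  let m : ℝ → Measure E := fun σ => (μ.withDensity fun c => (θ σ c : ENNReal)).map (G σ)
  have hfin : ∀ σ : ℝ, |σ| ≤ 1 → IsFiniteMeasure (μ.withDensity fun c => (θ σ c : ENNReal)) := by
    intro σ hσ
    refine isFiniteMeasure_withDensity ?_
    refine ne_of_lt (lt_of_le_of_lt (lintegral_mono (g := fun _ => 1) fun c => ?_) (by simp))
    have h4 := hθ1 σ hσ c
    have h5 : θ σ c ≤ 1 := by exact_mod_cast h4
    change (θ σ c : ENNReal) ≤ 1
    exact_mod_cast h5
  have hint : ∀ σ : ℝ, |σ| ≤ 1 → ∀ g : E → ℝ, Measurable g →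
      ∫ x, g x ∂(m σ) = ∫ c, ((1 + σ * r c) / 2) * g (G σ c) ∂μ := by
    intro σ hσ g hg
    have h3 := integral_map (μ := μ.withDensity fun c => (θ σ c : ENNReal))
      (measurable_G σ).aemeasurable hg.aestronglyMeasurable
    simp only [m]
    rw [h3, integral_withDensity_eq_integral_smul (hθm σ)]
    refine integral_congr_ae (Eventually.of_forall fun c => ?_)
    simp only [NNReal.smul_def, smul_eq_mul]
    rw [hθv σ hσ c]
  have h1' : |(1 : ℝ)| ≤ 1 := by simp
  have h1'' : |(-1 : ℝ)| ≤ 1 := by simp
  have hf1 := hfin 1 h1'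
  have hf2 := hfin (-1) h1''
  have hm1 : IsFiniteMeasure (m 1) := by simp only [m]; infer_instance
  have hm2 : IsFiniteMeasure (m (-1)) := by simp only [m]; infer_instance
  have hbint : ∀ h : X → ℝ, Measurable h → (∀ c, |h c| ≤ 1) → Integrable h μ := by
    intro h hh hb
    exact Integrable.of_bound hh.aestronglyMeasurable 1 (Eventually.of_forall hb)
  have haem : ∀ σ : ℝ, |σ| ≤ 1 → ∀ᵐ x ∂(m σ), ∃ c, x = G σ c := by
    intro σ hσ
    have hinj : Function.Injective (G σ) := by
      intro c d hcd
      funext i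
      have := congrFun hcd (Sum.inl {i})
      rw [G_inl, G_inl] at this
      by_cases hc : c i = true
      · by_cases hd : d i = true
        · rw [hc, hd]
        · rw [Set.indicator_of_mem (by simpa [A] using hc),
            Set.indicator_of_notMem (by simpa [A] using hd)] at this
          exact absurd this one_ne_zero
      · by_cases hd : d i = true
        · rw [Set.indicator_of_notMem (by simpa [A] using hc),
            Set.indicator_of_mem (by simpa [A] using hd)] at this
          exact absurd this zero_ne_one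
        · simp only [Bool.not_eq_true] at hc hd
          rw [hc, hd]
    have hms : MeasurableSet (range (G σ)) :=
      ((measurable_G σ).measurableEmbedding hinj).measurableSet_range
    have : MeasurableSet {x : E | ∃ c, x = G σ c} := by
      have e : {x : E | ∃ c, x = G σ c} = range (G σ) := by
        ext x; constructor
        · rintro ⟨c, rfl⟩; exact ⟨c, rfl⟩
        · rintro ⟨c, rfl⟩; exact ⟨c, rfl⟩
      rw [e]; exact hms
    simp only [m]
    rw [ae_map_iff (measurable_G σ).aemeasurable this]
    exact Eventually.of_forall fun c => ⟨c, rfl⟩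
  have hcint : ∀ i : Ix, ∀ σ : ℝ, |σ| ≤ 1 → IsFiniteMeasure (m σ) →
      Integrable (fun x : E => x i) (m σ) := by
    intro i σ hσ hm
    refine Integrable.of_bound (measurable_pi_apply i).aestronglyMeasurable 1 ?_
    filter_upwards [haem σ hσ] with x hx
    obtain ⟨c, rfl⟩ := hx
    exact G_bd hσ c i
  have hcoord : ∀ i : Ix, ∫ x, x i ∂(m 1 + m (-1)) = v i := by
    intro i
    rw [integral_add_measure (hcint i 1 h1' hm1) (hcint i (-1) h1'' hm2),
      hint 1 h1' _ (measurable_pi_apply i), hint (-1) h1'' _ (measurable_pi_apply i)]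
    have hb : ∀ σ : ℝ, |σ| ≤ 1 → ∀ c, |(1 + σ * r c) / 2 * G σ c i| ≤ 1 := by
      intro σ hσ c
      rw [abs_mul]
      have e1 : |(1 + σ * r c) / 2| ≤ 1 := by
        rw [← hθv σ hσ c, abs_of_nonneg (NNReal.coe_nonneg _)]
        exact hθ1 σ hσ c
      calc |(1 + σ * r c) / 2| * |G σ c i| ≤ 1 * 1 :=
            mul_le_mul e1 (G_bd hσ c i) (abs_nonneg _) zero_le_one
        _ = 1 := one_mul 1
    have hms : ∀ σ : ℝ, Measurable fun c => (1 + σ * r c) / 2 * G σ c i := by
      intro σ
      exact ((measurable_const.add (hrm.const_mul σ)).div_const 2).mul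
        ((measurable_pi_apply i).comp (measurable_G σ))
    rw [← integral_add (hbint _ (hms 1) (hb 1 h1')) (hbint _ (hms (-1)) (hb (-1) h1''))]
    rcases i with F | j
    · have : ∀ c, (1 + 1 * r c) / 2 * G 1 c (Sum.inl F) + (1 + -1 * r c) / 2 * G (-1) c (Sum.inl F)
          = (A F).indicator (fun _ => (1 : ℝ)) c := by
        intro c
        rw [G_inl, G_inl]; ring
      rw [integral_congr_ae (Eventually.of_forall this), integral_indicator (A_meas F),
        integral_const, smul_eq_mul, mul_one, measureReal_restrict_apply_univ, h1]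
    · have : ∀ c, (1 + 1 * r c) / 2 * G 1 c (Sum.inr j) + (1 + -1 * r c) / 2 * G (-1) c (Sum.inr j)
          = ({q j} : Set X).indicator (fun _ => r (q j)) c := by
        intro c
        rw [G_inr, G_inr]
        by_cases hc : c ∈ ({q j} : Set X)
        · rw [Set.indicator_of_mem hc, Set.indicator_of_mem hc, Set.indicator_of_mem hc,
            mem_singleton_iff.1 hc]
          ring
        · rw [Set.indicator_of_notMem hc, Set.indicator_of_notMem hc, Set.indicator_of_notMem hc]
          ring
      rw [integral_congr_ae (Eventually.of_forall this),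
        integral_indicator (measurableSet_singleton _),
        integral_const, smul_eq_mul, measureReal_restrict_apply_univ, hrq]
      by_cases h0 : μ.real {q j} = 0
      · rw [h0]
        have := h2 j
        rw [h0] at this
        rw [abs_nonpos_iff.1 this]; simp
      · rw [mul_div_cancel₀ _ h0]
  have hmass : (m 1 + m (-1)) univ = 1 := by
    have h3 : ∫ x, (1 : ℝ) ∂(m 1 + m (-1)) = 1 := by
      rw [integral_add_measure (integrable_const _) (integrable_const _),
        hint 1 h1' _ measurable_const, hint (-1) h1'' _ measurable_const]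
      have hb : ∀ σ : ℝ, |σ| ≤ 1 → ∀ c, |(1 + σ * r c) / 2 * (1 : ℝ)| ≤ 1 := by
        intro σ hσ c
        rw [mul_one, ← hθv σ hσ c, abs_of_nonneg (NNReal.coe_nonneg _)]
        exact hθ1 σ hσ c
      have hms : ∀ σ : ℝ, Measurable fun c => (1 + σ * r c) / 2 * (1 : ℝ) := by
        intro σ
        exact ((measurable_const.add (hrm.const_mul σ)).div_const 2).mul measurable_const
      rw [← integral_add (hbint _ (hms 1) (hb 1 h1')) (hbint _ (hms (-1)) (hb (-1) h1''))]
      have : ∀ c, (1 + 1 * r c) / 2 * (1 : ℝ) + (1 + -1 * r c) / 2 * 1 = 1 := by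
        intro c; ring
      rw [integral_congr_ae (Eventually.of_forall this)]
      simp
    rw [integral_const, smul_eq_mul, mul_one] at h3
    have : ((m 1 + m (-1)) univ).toReal = 1 := h3
    rw [← ENNReal.ofReal_toReal (measure_ne_top (m 1 + m (-1)) univ), this, ENNReal.ofReal_one]
  refine ⟨m 1 + m (-1), ⟨hmass⟩, ?_, ?_⟩
  · have h3 : ∀ᵐ x ∂(m 1 + m (-1)), x ∈ extremePoints ℝ K := by
      rw [ae_add_measure_iff]
      constructor
      · filter_upwards [haem 1 h1'] with x ⟨c, hx⟩
        exact ext_iff.2 ⟨c, Or.inl hx⟩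
      · filter_upwards [haem (-1) h1''] with x ⟨c, hx⟩
        exact ext_iff.2 ⟨c, Or.inr hx⟩
    exact h3
  · intro ℓ
    obtain ⟨s, hs⟩ := functional ℓ
    rw [integral_congr_ae (Eventually.of_forall hs), hs v, integral_finsetSum]
    · refine Finset.sum_congr rfl fun i _ => ?_
      rw [integral_mul_const, hcoord]
    · intro i _
      exact ((hcint i 1 h1' hm1).add_measure (hcint i (-1) h1'' hm2)).mul_const _

end Pool.Agent.X19.LU
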