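import Pool.Agent.X19.LU.Rep

/-!
Uniqueness of the representing measures.
-/

set_option autoImplicit false

open MeasureTheory Set Filter Topology

namespace Pool.Agent.X19.LU

/-- the position of an extreme point -/
noncomputable def p (v : E) : X := fun i => decide ((1 : ℝ) / 2 < v (Sum.inl {i}))

theorem measurable_p : Measurable p := by
  refine measurable_pi_lambda _ fun i => ?_
  refine measurable_to_bool ?_
  have : (fun v : E => decide ((1 : ℝ) / 2 < v (Sum.inl {i}))) ⁻¹' {true}
      = {v : E | (1 : ℝ) / 2 < v (Sum.inl {i})} := by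
    ext v; simp
  change MeasurableSet ((fun v : E => decide ((1 : ℝ) / 2 < v (Sum.inl {i}))) ⁻¹' {true})
  rw [this]
  exact measurableSet_lt measurable_const (measurable_pi_apply _)

theorem p_G (σ : ℝ) (c : X) : p (G σ c) = c := by
  funext i
  simp only [p, G_inl]
  by_cases hc : c i = true
  · rw [Set.indicator_of_mem (by simpa [A] using hc), hc]
    norm_num
  · rw [Set.indicator_of_notMem (by simpa [A] using hc)]
    simp only [Bool.not_eq_true] at hc
    rw [hc]; norm_num

/-- the points with a given value at the coordinate `j` -/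
def S (j : ℕ) (τ : ℝ) : Set E := {x | x (Sum.inr j) = τ}

theorem S_meas (j : ℕ) (τ : ℝ) : MeasurableSet (S j τ) := by
  have h : Measurable fun x : E => x (Sum.inr j) := measurable_pi_apply _
  exact h (measurableSet_singleton τ)

theorem aeZ {ξ : Measure E} {v : E} (h : Rep ξ v) :
    ∀ᵐ x ∂ξ, ∃ τ c, |τ| = 1 ∧ x = G τ c := by
  have h1 : ∀ᵐ x ∂ξ, x ∈ extremePoints ℝ K := h.2.1
  filter_upwards [h1] with x hx
  obtain ⟨c, hc | hc⟩ := ext_sub hx
  · exact ⟨1, c, by simp, hc⟩
  · exact ⟨-1, c, by simp, hc⟩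

theorem map_p {ξ : Measure E} {v : E} (h : Rep ξ v) (F : Finset ℕ) :
    (ξ.map p).real (A F) = v (Sum.inl F) := by
  have hp := h.1
  rw [map_measureReal_apply measurable_p (A_meas F)]
  have h1 : ∫ x, x (Sum.inl F) ∂ξ = v (Sum.inl F) :=
    h.2.2 (ContinuousLinearMap.proj (Sum.inl F))
  rw [← h1]
  have h2 : ∀ᵐ x ∂ξ, x (Sum.inl F) = (p ⁻¹' A F).indicator (fun _ => (1 : ℝ)) x := by
    filter_upwards [aeZ h] with x hx
    obtain ⟨τ, c, _, rfl⟩ := hx
    rw [G_inl]
    by_cases hc : c ∈ A F
    · have : G τ c ∈ p ⁻¹' A F := by rw [mem_preimage, p_G]; exact hc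
      rw [Set.indicator_of_mem hc, Set.indicator_of_mem this]
    · have : G τ c ∉ p ⁻¹' A F := by rw [mem_preimage, p_G]; exact hc
      rw [Set.indicator_of_notMem hc, Set.indicator_of_notMem this]
  rw [integral_congr_ae h2, integral_indicator (measurable_p (A_meas F)), integral_const,
    smul_eq_mul, mul_one, measureReal_restrict_apply_univ]

/-- on the extreme points, the coordinate `j` is nonzero only at `q j` -/
theorem mem_S_iff {τ : ℝ} {c : X} (_hτ : |τ| = 1) (j : ℕ) {s : ℝ} (hs : |s| = 1) :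
    G τ c ∈ S j s ↔ c = q j ∧ τ = s := by
  have hs0 : s ≠ 0 := by rintro rfl; simp at hs
  rw [S, mem_ofPred_eq, G_inr]
  by_cases hc : c ∈ ({q j} : Set X)
  · rw [Set.indicator_of_mem hc]
    exact ⟨fun h => ⟨hc, h⟩, fun h => h.2⟩
  · rw [Set.indicator_of_notMem hc]
    exact ⟨fun h => absurd h.symm hs0, fun h => absurd h.1 hc⟩

theorem S_values {ξ : Measure E} {v : E} (h : Rep ξ v) (j : ℕ) :
    ξ.real (S j 1) + ξ.real (S j (-1)) = (ξ.map p).real {q j} ∧
      ξ.real (S j 1) - ξ.real (S j (-1)) = v (Sum.inr j) := by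
  have hp := h.1
  have hdisj : Disjoint (S j 1) (S j (-1)) := by
    rw [Set.disjoint_left]
    intro x h1 h2
    rw [S, mem_ofPred_eq] at h1 h2
    rw [h1] at h2
    norm_num at h2
  constructor
  · rw [map_measureReal_apply measurable_p (measurableSet_singleton _),
      ← measureReal_union hdisj (S_meas j (-1))]
    refine measureReal_congr ?_
    filter_upwards [aeZ h] with x hx
    obtain ⟨τ, c, hτ, rfl⟩ := hx
    apply propext
    change (G τ c ∈ S j 1 ∪ S j (-1)) ↔ G τ c ∈ p ⁻¹' {q j}
    rw [mem_union, mem_S_iff hτ j (by simp), mem_S_iff hτ j (by simp), mem_preimage, p_G,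
      mem_singleton_iff]
    constructor
    · rintro (h | h) <;> exact h.1
    · intro h
      rcases (abs_eq zero_le_one).1 hτ with h5 | h5
      · exact Or.inl ⟨h, h5⟩
      · exact Or.inr ⟨h, h5⟩
  · have h1 : ∫ x, x (Sum.inr j) ∂ξ = v (Sum.inr j) :=
      h.2.2 (ContinuousLinearMap.proj (Sum.inr j))
    rw [← h1]
    have h2 : ∀ᵐ x ∂ξ, x (Sum.inr j) = (S j 1).indicator (fun _ => (1 : ℝ)) x
        - (S j (-1)).indicator (fun _ => (1 : ℝ)) x := by
      filter_upwards [aeZ h] with x hx
      obtain ⟨τ, c, hτ, rfl⟩ := hx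
      have e1 := mem_S_iff (c := c) hτ j (s := 1) (by simp)
      have e2 := mem_S_iff (c := c) hτ j (s := -1) (by simp)
      rw [G_inr]
      by_cases hc : c ∈ ({q j} : Set X)
      · rw [Set.indicator_of_mem hc]
        rcases (abs_eq zero_le_one).1 hτ with h5 | h5
        · rw [Set.indicator_of_mem (e1.2 ⟨hc, h5⟩),
            Set.indicator_of_notMem (fun hh => by have := (e2.1 hh).2; rw [h5] at this; norm_num at this),
            h5]
          norm_num
        · rw [Set.indicator_of_mem (e2.2 ⟨hc, h5⟩),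
            Set.indicator_of_notMem (fun hh => by have := (e1.1 hh).2; rw [h5] at this; norm_num at this),
            h5]
          norm_num
      · rw [Set.indicator_of_notMem hc, Set.indicator_of_notMem (fun hh => hc (e1.1 hh).1),
          Set.indicator_of_notMem (fun hh => hc (e2.1 hh).1)]
        norm_num
    rw [integral_congr_ae h2, integral_sub, integral_indicator (S_meas j 1),
      integral_indicator (S_meas j (-1)), integral_const, integral_const, smul_eq_mul,
      smul_eq_mul, mul_one, mul_one, measureReal_restrict_apply_univ,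
      measureReal_restrict_apply_univ]
    · exact (integrable_const (1 : ℝ)).indicator (S_meas j 1)
    · exact (integrable_const (1 : ℝ)).indicator (S_meas j (-1))

open Classical in
theorem decomp {ξ : Measure E} {v : E} (h : Rep ξ v) {B : Set E} (hB : MeasurableSet B) :
    ξ B = (ξ.map p) ((G 1) ⁻¹' B ∩ (range q)ᶜ)
      + ∑' j, ((if G 1 (q j) ∈ B then ξ (S j 1) else 0)
        + if G (-1) (q j) ∈ B then ξ (S j (-1)) else 0) := by
  classical
  have hp := h.1
  have hq : MeasurableSet (range q) := (countable_range q).measurableSet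
  have hsplit : B = (B ∩ (p ⁻¹' (range q))ᶜ) ∪ ⋃ j, (B ∩ p ⁻¹' {q j}) := by
    ext x
    simp only [mem_union, mem_inter_iff, mem_compl_iff, mem_preimage, mem_iUnion,
      mem_singleton_iff, mem_range]
    constructor
    · intro hx
      by_cases hh : ∃ j, q j = p x
      · obtain ⟨j, hj⟩ := hh
        exact Or.inr ⟨j, hx, hj.symm⟩
      · exact Or.inl ⟨hx, hh⟩
    · rintro (h | ⟨j, h, _⟩)
      · exact h.1
      · exact h
  have hm : ∀ j, MeasurableSet (B ∩ p ⁻¹' {q j}) := fun j =>
    hB.inter (measurable_p (measurableSet_singleton _))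
  have h1 : ξ B = ξ (B ∩ (p ⁻¹' (range q))ᶜ) + ∑' j, ξ (B ∩ p ⁻¹' {q j}) := by
    conv_lhs => rw [hsplit]
    rw [measure_union _ (MeasurableSet.iUnion hm), measure_iUnion _ hm]
    · intro i j hij
      rw [Function.onFun, Set.disjoint_left]
      rintro x ⟨_, h1⟩ ⟨_, h2⟩
      exact hij (q_inj ((mem_singleton_iff.1 h1).symm.trans (mem_singleton_iff.1 h2)))
    · rw [Set.disjoint_left]
      rintro x ⟨_, h1⟩ h2
      obtain ⟨j, _, hj⟩ := mem_iUnion.1 h2
      exact h1 ⟨j, (mem_singleton_iff.1 hj).symm⟩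
  rw [h1]
  congr 1
  · rw [Measure.map_apply measurable_p ((measurable_G 1 hB).inter hq.compl)]
    refine measure_congr ?_
    filter_upwards [aeZ h] with x hx
    obtain ⟨τ, c, hτ, rfl⟩ := hx
    apply propext
    change (G τ c ∈ B ∩ (p ⁻¹' (range q))ᶜ) ↔ G τ c ∈ p ⁻¹' ((G 1) ⁻¹' B ∩ (range q)ᶜ)
    rw [mem_inter_iff, mem_compl_iff, mem_preimage, mem_preimage, p_G, mem_inter_iff,
      mem_preimage, mem_compl_iff]
    constructor
    · rintro ⟨ha, hb⟩
      exact ⟨by rw [G_off hb 1 τ]; exact ha, hb⟩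
    · rintro ⟨ha, hb⟩
      exact ⟨by rw [G_off hb τ 1]; exact ha, hb⟩
  · congr 1
    funext j
    have h2 : ξ (B ∩ p ⁻¹' {q j}) = ξ (B ∩ S j 1) + ξ (B ∩ S j (-1)) := by
      rw [← measure_union _ (hB.inter (S_meas j (-1)))]
      · refine measure_congr ?_
        filter_upwards [aeZ h] with x hx
        obtain ⟨τ, c, hτ, rfl⟩ := hx
        apply propext
        change (G τ c ∈ B ∩ p ⁻¹' {q j}) ↔ G τ c ∈ (B ∩ S j 1) ∪ (B ∩ S j (-1))
        rw [mem_inter_iff, mem_union, mem_inter_iff, mem_inter_iff, mem_preimage, p_G,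
          mem_singleton_iff, mem_S_iff hτ j (by simp), mem_S_iff hτ j (by simp)]
        constructor
        · rintro ⟨ha, hb⟩
          rcases (abs_eq zero_le_one).1 hτ with h5 | h5
          · exact Or.inl ⟨ha, hb, h5⟩
          · exact Or.inr ⟨ha, hb, h5⟩
        · rintro (⟨ha, hb, _⟩ | ⟨ha, hb, _⟩) <;> exact ⟨ha, hb⟩
      · rw [Set.disjoint_left]
        rintro x ⟨_, h1⟩ ⟨_, h2⟩
        rw [S, mem_ofPred_eq] at h1 h2
        rw [h1] at h2
        norm_num at h2
    have h3 : ∀ s : ℝ, |s| = 1 → ξ (B ∩ S j s) = if G s (q j) ∈ B then ξ (S j s) else 0 := by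
      intro s hs
      split_ifs with hb
      · refine measure_congr ?_
        filter_upwards [aeZ h] with x hx
        obtain ⟨τ, c, hτ, rfl⟩ := hx
        apply propext
        change (G τ c ∈ B ∩ S j s) ↔ G τ c ∈ S j s
        rw [mem_inter_iff, mem_S_iff hτ j hs]
        constructor
        · exact fun h => h.2
        · rintro ⟨rfl, rfl⟩
          exact ⟨hb, rfl, rfl⟩
      · rw [← nonpos_iff_eq_zero, ← measure_empty (μ := ξ)]
        refine le_of_eq (measure_congr ?_)
        filter_upwards [aeZ h] with x hx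
        obtain ⟨τ, c, hτ, rfl⟩ := hx
        apply propext
        change (G τ c ∈ B ∩ S j s) ↔ G τ c ∈ (∅ : Set E)
        rw [mem_inter_iff, mem_S_iff hτ j hs]
        constructor
        · rintro ⟨ha, rfl, rfl⟩
          exact absurd ha hb
        · intro h; exact absurd h (notMem_empty _)
    rw [h2, h3 1 (by simp), h3 (-1) (by simp)]

theorem rep_unique {ξ ζ : Measure E} {v : E} (h : Rep ξ v) (h' : Rep ζ v) : ξ = ζ := by
  have hp := h.1
  have hp' := h'.1
  have hmp : ξ.map p = ζ.map p := by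
    have i1 : IsProbabilityMeasure (ξ.map p) := Measure.isProbabilityMeasure_map measurable_p.aemeasurable
    have i2 : IsProbabilityMeasure (ζ.map p) := Measure.isProbabilityMeasure_map measurable_p.aemeasurable
    exact ext_A fun F => (map_p h F).trans (map_p h' F).symm
  have hS : ∀ j, ξ (S j 1) = ζ (S j 1) ∧ ξ (S j (-1)) = ζ (S j (-1)) := by
    intro j
    obtain ⟨a, b⟩ := S_values h j
    obtain ⟨a', b'⟩ := S_values h' j
    rw [hmp] at a
    have e1 : ξ.real (S j 1) = ζ.real (S j 1) := by linarith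
    have e2 : ξ.real (S j (-1)) = ζ.real (S j (-1)) := by linarith
    constructor
    · rw [← ofReal_measureReal (μ := ξ), ← ofReal_measureReal (μ := ζ), e1]
    · rw [← ofReal_measureReal (μ := ξ), ← ofReal_measureReal (μ := ζ), e2]
  ext B hB
  rw [decomp h hB, decomp h' hB, hmp]
  congr 1
  refine tsum_congr fun j => ?_
  rw [(hS j).1, (hS j).2]

end Pool.Agent.X19.LU
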